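import Pool.Agent.J6H74.SAF.Main

/-!
# MP_5f80dd_lc, Q1: bi-embeddability of nuclear simple separable C*-algebras is complete analytic

`H` is an arbitrary separable infinite dimensional complex Hilbert space, `Γ(H) = B(H)^ℕ` is the
space of sequences of bounded operators with the product of the Borel structures of the weak
operator topology, and `γ ∈ Γ(H)` codes the C*-algebra `C*(γ)` generated by the entries of `γ`.

Idea of the proof. An analytic quasi-order `R` is coded by labelled trees `Λ x` on `List ℤ`: `R x y`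
holds if and only if there is a length preserving and extension preserving map `g` of the tree such
that the label set of `p` in `Λ x` is contained in the label set of `g p` in `Λ y`. Let `G` be the
group generated in the rational vector space with basis the nodes `u` by the dyadic multiples of
`u / p ^ k`, `u / r ^ k` and `(u' - u) / q ^ k`, where `u'` is a child of `u`, the primes `p`, `q`
depend on the level of `u` and the prime `r` on a label of `u`. With the strict order given by the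
sum of the coordinates `τ` (`x > 0` iff `τ x > 0`) this is a simple dimension group with order unit
the root. The unital simple AF algebra with this ordered group is realised by an explicit Bratteli
diagram which depends on the labelled tree in a Borel way. An embedding of the algebras gives
a homomorphism of the groups which does not vanish at the root, and divisibility gives a map of the
trees; conversely a map of the trees gives a positive unital homomorphism of the groups, which lifts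
to a unital embedding.
-/

set_option autoImplicit false

open scoped InnerProductSpace ComplexOrder

namespace Pool.Agent.Results.MP_5f80dd_lc.SimpleNuclearComplete

universe u v

section defs

variable {H : Type v} [NormedAddCommGroup H] [InnerProductSpace ℂ H] [CompleteSpace H]

/-- The C*-algebra `C*(γ)` generated by the entries of a sequence `γ` of operators on `H`: the norm
closure of the (not necessarily unital) *-algebra generated by them. -/
noncomputable def CStar (γ : ℕ → (H →L[ℂ] H)) : Set (H →L[ℂ] H) :=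
  closure (NonUnitalStarAlgebra.adjoin ℂ (Set.range γ))

/-- `φ` restricts to an injective *-homomorphism `C*(γ) → C*(δ)` (the values of `φ` outside of
`C*(γ)` are irrelevant). -/
def IsEmbedding (γ δ : ℕ → (H →L[ℂ] H)) (φ : (H →L[ℂ] H) → (H →L[ℂ] H)) : Prop :=
  Set.MapsTo φ (CStar γ) (CStar δ) ∧ Set.InjOn φ (CStar γ) ∧
    ∀ a ∈ CStar γ, ∀ b ∈ CStar γ, ∀ c : ℂ,
      φ (a + b) = φ a + φ b ∧ φ (a * b) = φ a * φ b ∧
        φ (star a) = star (φ a) ∧ φ (c • a) = c • φ a

/-- `C*(γ)` embeds into `C*(δ)`. -/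
def Embeds (γ δ : ℕ → (H →L[ℂ] H)) : Prop := ∃ φ, IsEmbedding γ δ φ

/-- `C*(γ)` and `C*(δ)` are bi-embeddable. -/
def BiEmbeddable (γ δ : ℕ → (H →L[ℂ] H)) : Prop := Embeds γ δ ∧ Embeds δ γ

/-- `C*(γ)` is a simple C*-algebra: it is not zero and its only closed two-sided ideals are zero
and the whole algebra. -/
def IsSimple (γ : ℕ → (H →L[ℂ] H)) : Prop :=
  (∃ a ∈ CStar γ, a ≠ 0) ∧
  ∀ J : Set (H →L[ℂ] H), J ⊆ CStar γ → IsClosed J → (0 : H →L[ℂ] H) ∈ J →
    (∀ a ∈ J, ∀ b ∈ J, a + b ∈ J) → (∀ a ∈ J, ∀ c : ℂ, c • a ∈ J) →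
    (∀ a ∈ J, ∀ x ∈ CStar γ, x * a ∈ J ∧ a * x ∈ J) → J = {0} ∨ J = CStar γ

/-- `C*(γ)` is an AF algebra: it is the closure of the union of an increasing sequence of finite
dimensional *-subalgebras. -/
def IsAF (γ : ℕ → (H →L[ℂ] H)) : Prop :=
  ∃ N : ℕ → NonUnitalStarSubalgebra ℂ (H →L[ℂ] H), Monotone N ∧
    (∀ n, FiniteDimensional ℂ (N n).toSubmodule) ∧ CStar γ = closure (⋃ n, (N n : Set (H →L[ℂ] H)))

/-- `φ` is a completely positive contractive linear map from the set `S` of operators on `L` to the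
operators on `M`: it is linear and contractive on `S`, and the sums
`∑ i, ∑ j, ⟪ξ i, φ (a i ^* a j) (ξ j)⟫` are nonnegative for all finite families of operators `a i`
in `S` and of vectors `ξ i` in `M`. -/
structure IsCPC {L : Type u} {M : Type v} [NormedAddCommGroup L] [InnerProductSpace ℂ L]
    [CompleteSpace L] [NormedAddCommGroup M] [InnerProductSpace ℂ M]
    (S : Set (L →L[ℂ] L)) (φ : (L →L[ℂ] L) → (M →L[ℂ] M)) : Prop where
  add : ∀ a ∈ S, ∀ b ∈ S, φ (a + b) = φ a + φ b
  smul : ∀ a ∈ S, ∀ c : ℂ, φ (c • a) = c • φ a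
  cp : ∀ (n : ℕ) (a : Fin n → (L →L[ℂ] L)) (ξ : Fin n → M), (∀ i, a i ∈ S) →
    0 ≤ ∑ i, ∑ j, ⟪ξ i, φ (star (a i) * a j) (ξ j)⟫_ℂ
  contr : ∀ a ∈ S, ‖φ a‖ ≤ ‖a‖

/-- `C*(γ)` is nuclear, in the form of the completely positive approximation property: the identity
map of `C*(γ)` can be approximated, on each finite set, by compositions `ψ ∘ φ` of completely
positive contractions `φ : C*(γ) → M_n(ℂ)` and `ψ : M_n(ℂ) → C*(γ)`. -/
def IsNuclear (γ : ℕ → (H →L[ℂ] H)) : Prop :=
  ∀ F : Finset (H →L[ℂ] H), (∀ a ∈ F, a ∈ CStar γ) → ∀ ε : ℝ, 0 < ε →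
    ∃ (n : ℕ) (φ : (H →L[ℂ] H) → (EuclideanSpace ℂ (Fin n) →L[ℂ] EuclideanSpace ℂ (Fin n)))
      (ψ : (EuclideanSpace ℂ (Fin n) →L[ℂ] EuclideanSpace ℂ (Fin n)) → (H →L[ℂ] H)),
      IsCPC (CStar γ) φ ∧ IsCPC Set.univ ψ ∧ (∀ a, ψ a ∈ CStar γ) ∧ ∀ a ∈ F, ‖ψ (φ a) - a‖ < ε

/-- The Borel structure of the weak operator topology on `B(H)`. -/
noncomputable def wotBorel : MeasurableSpace (H →L[ℂ] H) :=
  @borel (H →L[ℂ] H)
    (TopologicalSpace.induced (fun (T : H →L[ℂ] H) (q : H × H) => ⟪q.1, T q.2⟫_ℂ) inferInstance)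

/-- A map into `Γ(H) = B(H)^ℕ` is Borel (for the product of the Borel structures of the weak
operator topology). -/
def BorelMap {X : Type u} [MeasurableSpace X] (f : X → ℕ → (H →L[ℂ] H)) : Prop :=
  @Measurable X (ℕ → (H →L[ℂ] H)) _ (@MeasurableSpace.pi ℕ _ fun _ => wotBorel) f

end defs

/-- A relation on a standard Borel space is analytic: it is the projection of a Borel subset of
`X × X × ℕ^ℕ`. -/
def Analytic {X : Type u} [MeasurableSpace X] (R : X → X → Prop) : Prop :=
  ∃ B : Set ((X × X) × (ℕ → ℕ)), MeasurableSet B ∧ ∀ x y, R x y ↔ ∃ w, ((x, y), w) ∈ B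

section bridge

variable {H : Type v} [NormedAddCommGroup H] [InnerProductSpace ℂ H] [CompleteSpace H]

open J6H74.SAF (CA)

theorem mem_CA {γ : ℕ → (H →L[ℂ] H)} {a : H →L[ℂ] H} : a ∈ CA γ ↔ a ∈ CStar γ := Iff.rfl

theorem embeds_of_hom {γ δ : ℕ → (H →L[ℂ] H)} (φ : CA γ →⋆ₙₐ[ℂ] CA δ)
    (hφ : Function.Injective φ) : ∃ ψ, IsEmbedding γ δ ψ ∧
      ∀ (a : H →L[ℂ] H) (h : a ∈ CA γ), ψ a = φ ⟨a, h⟩ := by
  classical
  let ψ : (H →L[ℂ] H) → (H →L[ℂ] H) := fun a =>
    if h : a ∈ CA γ then (φ ⟨a, h⟩ : H →L[ℂ] H) else 0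
  have hψ : ∀ (a : H →L[ℂ] H) (h : a ∈ CA γ), ψ a = φ ⟨a, h⟩ := fun a h => dif_pos h
  refine ⟨ψ, ⟨?_, ?_, ?_⟩, hψ⟩
  · intro a ha
    have ha' : a ∈ CA γ := ha
    rw [hψ a ha']
    exact (φ ⟨a, ha'⟩).2
  · intro a ha b hb hab
    have ha' : a ∈ CA γ := ha
    have hb' : b ∈ CA γ := hb
    rw [hψ a ha', hψ b hb'] at hab
    exact congrArg Subtype.val (hφ (Subtype.ext hab))
  · intro a ha b hb c
    have ha' : a ∈ CA γ := ha
    have hb' : b ∈ CA γ := hb
    refine ⟨?_, ?_, ?_, ?_⟩
    · rw [hψ _ (add_mem ha' hb'), hψ a ha', hψ b hb']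
      exact congrArg Subtype.val (map_add φ (⟨a, ha'⟩ : CA γ) ⟨b, hb'⟩)
    · rw [hψ _ (mul_mem ha' hb'), hψ a ha', hψ b hb']
      exact congrArg Subtype.val (map_mul φ (⟨a, ha'⟩ : CA γ) ⟨b, hb'⟩)
    · rw [hψ _ (star_mem ha'), hψ a ha']
      exact congrArg Subtype.val (map_star φ (⟨a, ha'⟩ : CA γ))
    · rw [hψ _ (SMulMemClass.smul_mem c ha'), hψ a ha']
      exact congrArg Subtype.val (map_smul φ c (⟨a, ha'⟩ : CA γ))

theorem hom_of_embeds {γ δ : ℕ → (H →L[ℂ] H)} (h : Embeds γ δ) :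
    ∃ φ : CA γ →⋆ₙₐ[ℂ] CA δ, Function.Injective φ := by
  obtain ⟨φ, h1, h2, h3⟩ := h
  refine ⟨{ toFun := fun x => ⟨φ x, h1 x.2⟩, map_smul' := ?_, map_zero' := ?_,
            map_add' := ?_, map_mul' := ?_, map_star' := ?_ }, ?_⟩
  · intro c x
    exact Subtype.ext (h3 x x.2 x x.2 c).2.2.2
  · have h := (h3 (0 : CA γ) (0 : CA γ).2 (0 : CA γ) (0 : CA γ).2 0).1
    refine Subtype.ext ?_
    change φ 0 = 0
    simpa using h
  · intro x y
    exact Subtype.ext (h3 x x.2 y y.2 0).1
  · intro x y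
    exact Subtype.ext (h3 x x.2 y y.2 0).2.1
  · intro x
    exact Subtype.ext (h3 x x.2 x x.2 0).2.2.1
  · intro x y hxy
    exact Subtype.ext (h2 x.2 y.2 (congrArg Subtype.val hxy))

end bridge

/-- **Bi-embeddability of nuclear simple separable C*-algebras is a complete analytic equivalence
relation.** Let `H` be a separable infinite dimensional Hilbert space and let `R` be an analytic
quasi-order on a standard Borel space `X`. There is a Borel map `f : X → Γ(H)` such that all the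
C*-algebras `C*(f x)` are nuclear, simple, unital (with unit the identity operator) and AF, and
`R x y` holds if and only if `C*(f x)` embeds into `C*(f y)`, and also if and only if `C*(f x)`
embeds into `C*(f y)` by a unital embedding. Consequently, if `R` is an analytic equivalence
relation, then `f` is a Borel reduction of `R` to bi-embeddability on the codes of nuclear simple
separable C*-algebras. -/
theorem result (H : Type v) [NormedAddCommGroup H] [InnerProductSpace ℂ H] [CompleteSpace H]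
    [TopologicalSpace.SeparableSpace H] (hH : ¬ FiniteDimensional ℂ H)
    (X : Type u) [MeasurableSpace X] [StandardBorelSpace X] (R : X → X → Prop)
    (hrefl : ∀ x, R x x) (htrans : ∀ x y z, R x y → R y z → R x z) (hR : Analytic R) :
    ∃ f : X → ℕ → (H →L[ℂ] H), BorelMap f ∧
      (∀ x, IsNuclear (f x) ∧ IsSimple (f x) ∧ IsAF (f x) ∧ (1 : H →L[ℂ] H) ∈ CStar (f x)) ∧
      (∀ x y, R x y ↔ Embeds (f x) (f y)) ∧
      (∀ x y, R x y ↔ ∃ φ, IsEmbedding (f x) (f y) φ ∧ φ 1 = 1) ∧
      (Equivalence R → ∀ x y, R x y ↔ BiEmbeddable (f x) (f y)) := by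
  obtain ⟨f, h1, h2, h3, h4, h5, h6, h7⟩ := J6H74.SAF.main hH wotBorel R hrefl htrans hR
  have hne : (1 : H →L[ℂ] H) ≠ 0 := by
    intro h
    apply hH
    have h8 : ∀ x : H, x = 0 := fun x => congrArg (fun T : H →L[ℂ] H => T x) h
    have : Subsingleton H := ⟨fun x y => by rw [h8 x, h8 y]⟩
    infer_instance
  have hu : ∀ x y, R x y → ∃ φ, IsEmbedding (f x) (f y) φ ∧ φ 1 = 1 := by
    intro x y hxy
    obtain ⟨φ, g1, g2⟩ := h6 x y hxy
    obtain ⟨ψ, g3, g4⟩ := embeds_of_hom φ g1
    exact ⟨ψ, g3, (g4 1 (h2 x)).trans (g2 (h2 x))⟩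
  have he : ∀ x y, Embeds (f x) (f y) → R x y := fun x y h => h7 x y (hom_of_embeds h)
  have hiff : ∀ x y, R x y ↔ Embeds (f x) (f y) := fun x y =>
    ⟨fun h => (hu x y h).imp fun _ h => h.1, he x y⟩
  refine ⟨f, h1, fun x => ⟨?_, ⟨⟨1, h2 x, hne⟩, ?_⟩, h3 x, h2 x⟩, hiff,
    fun x y => ⟨hu x y, fun ⟨φ, h, _⟩ => he x y ⟨φ, h⟩⟩, fun hE x y =>
      ⟨fun h => ⟨(hiff x y).1 h, (hiff y x).1 (hE.symm h)⟩, fun h => (hiff x y).2 h.1⟩⟩
  · intro F hF ε hε
    obtain ⟨n, φ, ψ, g1, g2, g3, g4⟩ := h5 x F hF ε hε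
    exact ⟨n, φ, ψ, ⟨g1.add, g1.smul, g1.cp, g1.contr⟩, ⟨g2.add, g2.smul, g2.cp, g2.contr⟩, g3, g4⟩
  · intro J hJ hcl h0 hadd _ hmul
    by_cases h : J = {0}
    · exact Or.inl h
    · right
      have h8 : ∃ T ∈ J, T ≠ 0 := by
        by_contra h9
        push Not at h9
        apply h
        ext T
        constructor
        · exact fun hT => h9 T hT
        · rintro rfl
          exact h0
      obtain ⟨T, hT, hT0⟩ := h8
      exact Set.Subset.antisymm hJ (h4 x J hJ hcl h0 hadd (fun S hS y hy => (hmul S hS y hy).1)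
        (fun S hS y hy => (hmul S hS y hy).2) T hT hT0)

end Pool.Agent.Results.MP_5f80dd_lc.SimpleNuclearComplete
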